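import Pool.Agent.helper83.LE.SpecB

/-!
# Row le:BDA: the bound for the number of Brauer characters
-/

set_option autoImplicit false

namespace Pool.Agent.LE

open Pool.Agent.helper58.DC Pool.Agent.DI Pool.Agent.GR Pool.Agent.OB Pool.Agent.DR Pool.Agent.FI Pool.Agent.FI3 Pool.Agent.FI4 Pool.Agent.FI4C

/-- `χ` is in its block -/
theorem BDA_self {p : ℕ} {M : Ideal (integralClosure ℤ ℂ)} (hTPR : FI.TPR_stmt) (hS : Setup p M) {G : Type} [Group G] [Finite G]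
    {D : Subgroup G} {x : G} {θ χ : G → ℂ} (hR : Rt p M D x θ χ) : χ ∈ Blk M χ (⊤ : Subgroup G) := by
  obtain ⟨hT1, -, -⟩ := hTPR p M hS G
  refine ⟨?_, fun g => ⟨0, M.zero_mem, by simp⟩⟩
  rw [hT1]
  exact hR.chi

/-- the number of Brauer characters is at most `|X|` -/
theorem BDA_le (hLOA : LOA_stmt) (hGM2 : GM2_stmt) (hCNL : CNL_stmt) (hLLN : LLN_stmt) (hTPR : FI.TPR_stmt)
    (p : ℕ) (M : Ideal (integralClosure ℤ ℂ)) (hS : Setup p M) (hp2 : p ≠ 2) (G : Type) [Group G] [Finite G]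
    (D : Subgroup G) (x : G) (θ χ : G → ℂ) (hR : Rt p M D x θ χ) :
    LoA p M D x θ χ ∧ ∃ m l : ℕ, Gm2 p (Nat.card G) m ∧ LL p M χ ⊤ = l ∧ 1 ≤ l ∧
      l ≤ {ψ : G → ℂ | ψ ∈ Blk M χ (⊤ : Subgroup G) ∧ PR m ψ}.ncard := by
  have lo := hLOA p M hS G D x θ χ hR
  obtain ⟨m, hm⟩ := hGM2 p (Nat.card G) hS.pr hp2 Nat.card_pos
  obtain ⟨l, hl, hl1⟩ := hLLN p M hS G χ ⊤
  obtain ⟨r, hr, hX⟩ := hCNL p M hS G D x θ χ lo m hm
  refine ⟨lo, m, l, hm, hl, hl1 ⟨χ, BDA_self hTPR hS hR⟩, ?_⟩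
  rw [hl] at hX
  have h1 : (({ψ : G → ℂ | ψ ∈ Blk M χ (⊤ : Subgroup G) ∧ PR m ψ}.ncard : ℝ) : ℂ) = (((l : ℝ) + r : ℝ) : ℂ) := by
    push_cast
    exact hX
  have h2 := Complex.ofReal_injective h1
  have h3 : (l : ℝ) ≤ ({ψ : G → ℂ | ψ ∈ Blk M χ (⊤ : Subgroup G) ∧ PR m ψ}.ncard : ℝ) := by
    rw [h2]
    linarith
  exact_mod_cast h3

/-- the set of the elements of small order -/
theorem BDA_mono {G : Type} [Group G] [Finite G] (D : Subgroup G) {p i n : ℕ} (h : i ≤ n) :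
    4 * i * {u : G | u ∈ D ∧ orderOf u ≤ 4 * p * i}.ncard ≤ 4 * n * {u : G | u ∈ D ∧ orderOf u ≤ 4 * p * n}.ncard := by
  refine Nat.mul_le_mul (Nat.mul_le_mul_left 4 h) ?_
  refine Set.ncard_le_ncard ?_ (Set.toFinite _)
  rintro u ⟨h1, h2⟩
  exact ⟨h1, h2.trans (Nat.mul_le_mul_left _ h)⟩

/-- Row BDA -/
theorem BDA (hLOA : LOA_stmt) (hGM2 : GM2_stmt) (hCNL : CNL_stmt) (hBDX : BDX_stmt) (hLLN : LLN_stmt) (hTPR : FI.TPR_stmt) :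
    BDA_stmt := by
  intro p M hS hp2 G _ _ D x θ χ hR n c h hHL hb hn
  obtain ⟨lo, m, l, hm, hl, hl1, hlX⟩ := BDA_le hLOA hGM2 hCNL hLLN hTPR p M hS hp2 G D x θ χ hR
  refine ⟨l, hl, hl1, ?_⟩
  have h1 := hBDX p M hS hp2 G D x θ χ lo n c h hHL hn m hm
  exact ((hlX.trans h1).trans (BDA_mono D hHL.le)).trans hb

end Pool.Agent.LE
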