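import Pool.Agent.helper70.LE.SpecN

/-!
# Row le:NIL: a normal subgroup `R ≤ D` which is regular
-/

set_option autoImplicit false

namespace Pool.Agent.LE

open Pool.Agent.helper58.DC Pool.Agent.DI Pool.Agent.GR Pool.Agent.OB Pool.Agent.DR Pool.Agent.FI Pool.Agent.FI3 Pool.Agent.FI4

/-- the blocks of `cz Q` which induce to the block of `χ`, if every conjugate of `Q` in `D` is `Q` -/
theorem NIL_blk {p : ℕ} {M : Ideal (integralClosure ℤ ℂ)} (hFEQ : FEQ_stmt) {G : Type} [Group G] [Finite G]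
    {D : Subgroup G} {x : G} {θ χ : G → ℂ} (lo : LoA p M D x θ χ) {Q : Subgroup G} (hQ : IsPGroup p Q)
    (h : ∀ g : G, cjS g Q ≤ D → cjS g Q = Q) :
    ∀ ψ ∈ IrrOn (cz Q), Induces M ψ χ → ∃ g ∈ nz Q, cjF g ψ ∈ Bl M (cz Q) θ := by
  intro ψ hψ hi
  obtain ⟨g, h1, h2⟩ := lo.con Q hQ ψ hψ hi
  obtain ⟨-, ⟨e1, -, -, e4, -, -⟩, -, e6, -⟩ := hFEQ G M g 1 Q Q (cz Q) θ ψ χ
  have h3 := h g h1
  refine ⟨g, e4.1 h3, ?_, ?_⟩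
  · have h4 := e6.1 hψ
    rw [← e1, h3] at h4
    exact h4
  · rw [h3] at h2
    exact h2.symm

/-- Row NIL -/
theorem NIL (hLFM : LFM_stmt) (hOQD : OQD_stmt) (hLOA : LOA_stmt) (hNYT : NYT_stmt) (hFEQ : FEQ_stmt) (hTTF : TTF_stmt) :
    NIL_stmt := by
  intro p M hS hp2 G _ _ D x θ χ hR R hRD hRn hRP
  have lo := hLOA p M hS G D x θ χ hR
  have hDP : RP M D θ D := fun t _ h => h
  have e1 := hLFM p M hS G D x θ χ lo R hRD hRP (NIL_blk hFEQ lo (hR.dfa.pgrp.to_le hRD) (fun g _ => by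
    obtain ⟨-, ⟨-, -, -, e4, -, -⟩, -⟩ := hFEQ G M g 1 R R (cz R) θ χ χ
    exact e4.2 (by rw [hRn]; exact Subgroup.mem_top g)))
  have e2 := hLFM p M hS G D x θ χ lo D le_rfl hDP (NIL_blk hFEQ lo hR.dfa.pgrp (fun g h => by
    obtain ⟨-, ⟨-, -, -, -, -, e5⟩, -⟩ := hFEQ G M g 1 D D (cz D) θ χ χ
    exact Subgroup.eq_of_le_of_card_ge h e5.ge))
  have hT : TT M D θ ≤ nz D := fun t ht => ht.1
  have hs : ∀ t : G, t ∈ nz R := fun t => by rw [hRn]; exact Subgroup.mem_top t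
  have h1 : TT M D θ ⊓ nz R = TT M D θ ⊓ nz D := by
    rw [hRn, inf_top_eq, inf_eq_left.2 hT]
  have h2 : (∑ᶠ a ∈ {a : G | a ∈ TT M D θ ∧ a ∈ nz R}, ∑ᶠ y ∈ {y : G | y ∈ TT M D θ ∧ y ∈ nz R ∧ a * y * a⁻¹ * y⁻¹ ∈ cz D},
        om p (cz R) (eBl M (cz R) θ) a y) =
      ∑ᶠ a ∈ {a : G | a ∈ TT M D θ ∧ a ∈ nz D}, ∑ᶠ y ∈ {y : G | y ∈ TT M D θ ∧ y ∈ nz D ∧ a * y * a⁻¹ * y⁻¹ ∈ cz D},
        om p (cz D) (eBl M (cz D) θ) a y := by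
    refine finsum_mem_congr ?_ ?_
    · ext a
      exact ⟨fun h => ⟨h.1, hT h.1⟩, fun h => ⟨h.1, hs a⟩⟩
    · rintro a ⟨ha, -⟩
      refine finsum_mem_congr ?_ ?_
      · ext y
        exact ⟨fun h => ⟨h.1, hT h.1, h.2.2⟩, fun h => ⟨h.1, hs y, h.2.2⟩⟩
      · rintro y ⟨hy, -, hc⟩
        exact hOQD p M hS hp2 G D x θ χ lo R hRD hRP a ha (hs a) y hy (hs y) hc
  rw [h2, ← e2, h1, hRn] at e1
  have h3 : (Nat.card (TT M D θ ⊓ nz D : Subgroup G) : ℂ) * (Nat.card (cz D) : ℂ) ≠ 0 :=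
    mul_ne_zero (Nat.cast_ne_zero.2 Nat.card_pos.ne') (Nat.cast_ne_zero.2 Nat.card_pos.ne')
  exact mul_left_cancel₀ h3 e1

end Pool.Agent.LE
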