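import Pool.Agent.helper12.LE.SpecB
import Pool.Agent.helper33.LE.BDA

/-!
# Row le:KBL: the output of block BOUND-K
-/

set_option autoImplicit false

namespace Pool.Agent.LE

open Pool.Agent.helper58.DC Pool.Agent.DI Pool.Agent.GR Pool.Agent.OB Pool.Agent.DR Pool.Agent.FI Pool.Agent.FI3 Pool.Agent.FI4 Pool.Agent.FI4C Pool.Agent.FI4B

/-- Row KBL -/
theorem KBL (hLOA : LOA_stmt) (hGM2 : GM2_stmt) (hCNL : CNL_stmt) (hKXB : KXB_stmt) (hKHH : KHH_stmt) (hLLN : LLN_stmt)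
    (hTPR : FI.TPR_stmt) : KBL_stmt := by
  intro p M hS hp2 G _ _ D x θ χ hR h g K u hK hh
  obtain ⟨lo, m, l, hm, hl, hl1, hlX⟩ := BDA_le hLOA hGM2 hCNL hLLN hTPR p M hS hp2 G D x θ χ hR
  refine ⟨l, hl, hl1, ?_⟩
  have h1 := hKXB p M hS hp2 G D x θ χ lo h g K u hK m hm (hKHH p M hS G D x θ χ hR h hh)
  exact (Nat.mul_le_mul_right _ (Nat.mul_le_mul_right _ hlX)).trans h1

end Pool.Agent.LE
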