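import Pool.Agent.helper33.LE.FB
import Pool.Agent.helper65.LE.TA

/-!
# Positivity of the Fourier coefficients of the two-point function
-/

set_option autoImplicit false

open Finset Classical

namespace Pool.Agent.helper66.LE

variable {d L : ℕ} [NeZero L] {q : ℝ}

theorem FA_cs_sub (k x y : Tor d L) :
    cs k (y - x) = (starRingEnd ℂ (ee k x) * ee k y).re := by
  rw [cs, sub_eq_add_neg, FO_add, FB_neg, mul_comm]

/-- positivity for one configuration -/
theorem FA_pos (F : Finset (Sym2 (Tor d L))) (k : Tor d L) :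
    0 ≤ ∑ x, ∑ y, if Conn F x y then cs k (y - x) else 0 := by
  set G := SimpleGraph.fromEdgeSet (F : Set (Sym2 (Tor d L))) with hG
  have : Fintype G.ConnectedComponent := Fintype.ofFinite _
  set S : G.ConnectedComponent → ℂ := fun c =>
    ∑ y, if G.connectedComponentMk y = c then ee k y else 0 with hS
  have h1 : ∑ x, ∑ y, (if Conn F x y then cs k (y - x) else 0) =
      (∑ c, starRingEnd ℂ (S c) * S c).re := by
    have h2 : ∀ c, starRingEnd ℂ (S c) * S c = ∑ x, ∑ y,
        (if G.connectedComponentMk x = c then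
          (if G.connectedComponentMk y = c then starRingEnd ℂ (ee k x) * ee k y else 0) else 0) := by
      intro c
      simp only [hS]
      rw [map_sum, Finset.sum_mul_sum]
      refine Finset.sum_congr rfl fun x _ => ?_
      refine Finset.sum_congr rfl fun y _ => ?_
      split_ifs <;> simp
    have h5 : ∑ c, starRingEnd ℂ (S c) * S c = ∑ x, ∑ y, ∑ c : G.ConnectedComponent,
        (if G.connectedComponentMk x = c then
          (if G.connectedComponentMk y = c then starRingEnd ℂ (ee k x) * ee k y else 0) else 0) := by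
      simp only [h2]
      rw [Finset.sum_comm]
      refine Finset.sum_congr rfl fun x _ => ?_
      rw [Finset.sum_comm]
    rw [h5, Complex.re_sum]
    refine Finset.sum_congr rfl fun x _ => ?_
    rw [Complex.re_sum]
    refine Finset.sum_congr rfl fun y _ => ?_
    rw [Finset.sum_ite_eq, if_pos (Finset.mem_univ _)]
    have h3 : Conn F x y ↔ G.connectedComponentMk y = G.connectedComponentMk x := by
      rw [SimpleGraph.ConnectedComponent.eq]
      exact ⟨fun h => SimpleGraph.Reachable.symm h, fun h => SimpleGraph.Reachable.symm h⟩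
    simp only [h3]
    split_ifs
    · exact FA_cs_sub k x y
    · simp
  rw [h1, Complex.re_sum]
  refine Finset.sum_nonneg fun c _ => ?_
  rw [mul_comm, Complex.mul_conj, Complex.ofReal_re]
  exact Complex.normSq_nonneg _

/-- FA (from TA2): positivity of the Fourier coefficients -/
theorem fh_tt_nonneg (h0 : 0 ≤ q) (h1 : q ≤ 1) (k : Tor d L) : 0 ≤ fh (tt d L q) k := by
  have hL0 : (0 : ℝ) < L := Nat.cast_pos.2 (Nat.pos_of_ne_zero (NeZero.ne L))
  have hLd : (0 : ℝ) < (L : ℝ) ^ d := pow_pos hL0 d
  have h2 : ∑ x : Tor d L, ∑ y : Tor d L, tt d L q (y - x) * cs k (y - x) =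
      (L : ℝ) ^ d * fh (tt d L q) k := by
    have h3 : ∀ x : Tor d L, ∑ y : Tor d L, tt d L q (y - x) * cs k (y - x) =
        fh (tt d L q) k := by
      intro x
      rw [← Equiv.sum_comp (Equiv.addRight x)]
      simp only [Equiv.coe_addRight, add_sub_cancel_right]
      rfl
    rw [Finset.sum_congr rfl fun x _ => h3 x, Finset.sum_const, nsmul_eq_mul]
    congr 1
    simp [Tor, Fintype.card_pi, ZMod.card]
  have h4 : ∑ x : Tor d L, ∑ y : Tor d L, tt d L q (y - x) * cs k (y - x) =
      Ex q (cay (uv d (ZMod L))) (fun F => ∑ x, ∑ y, if Conn F x y then cs k (y - x) else 0) := by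
    rw [Ex_sum]
    refine Finset.sum_congr rfl fun x _ => ?_
    rw [Ex_sum]
    refine Finset.sum_congr rfl fun y _ => ?_
    rw [← t2_eq_tt, t2, Pr, ← Ex_mul_const]
    refine Ex_congr fun F _ => ?_
    split_ifs <;> ring
  have h5 : 0 ≤ (L : ℝ) ^ d * fh (tt d L q) k := by
    rw [← h2, h4]
    exact Ex_nonneg h0 h1 fun F _ => FA_pos F k
  exact nonneg_of_mul_nonneg_right h5 hLd

end Pool.Agent.helper66.LE
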