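import Pool.Agent.helper33.LE.FO

/-!
# Powers of convolution matrices
-/

set_option autoImplicit false

open Finset Classical

namespace Pool.Agent.helper66.LE

variable {d L : ℕ} [NeZero L]

/-- imaginary part of the characters -/
noncomputable def FB_sn (k x : Tor d L) : ℝ := (ee k x).im

theorem FB_norm (k x : Tor d L) : ‖ee k x‖ = 1 := by
  unfold ee
  exact AddChar.norm_apply _ _

theorem FB_neg (k x : Tor d L) : ee k (-x) = starRingEnd ℂ (ee k x) := by
  have h1 : ee k (-x) * ee k x = 1 := by rw [← FO_add, neg_add_cancel, FO_zero]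
  have h2 : ee k x ≠ 0 := fun h => by rw [h, mul_zero] at h1; exact zero_ne_one h1
  have h3 : starRingEnd ℂ (ee k x) * ee k x = 1 := by
    rw [mul_comm, Complex.mul_conj, Complex.normSq_eq_norm_sq, FB_norm]
    norm_num
  exact mul_right_cancel₀ h2 (h1.trans h3.symm)

theorem FB_cs_neg (k x : Tor d L) : cs k (-x) = cs k x := by
  rw [cs, FB_neg, Complex.conj_re, cs]

theorem FB_sn_neg (k x : Tor d L) : FB_sn k (-x) = -FB_sn k x := by
  rw [FB_sn, FB_neg, Complex.conj_im, FB_sn]

theorem FB_cs_add (k x y : Tor d L) : cs k (x + y) = cs k x * cs k y - FB_sn k x * FB_sn k y := by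
  rw [cs, FO_add, Complex.mul_re, cs, cs, FB_sn, FB_sn]

theorem FB_cs_symm (k x : Tor d L) : cs k x = cs x k := by rw [cs, FO_symm, cs]

theorem FB_cs_neg_left (k x : Tor d L) : cs (-k) x = cs k x := by
  rw [FB_cs_symm, FB_cs_neg, FB_cs_symm]

theorem FB_fh_neg (f : Tor d L → ℝ) (k : Tor d L) : fh f (-k) = fh f k := by
  unfold fh
  exact Finset.sum_congr rfl fun x _ => by rw [FB_cs_neg_left]

/-- the odd part vanishes -/
theorem FB_odd (f : Tor d L → ℝ) (hf : ∀ x, f (-x) = f x) (k : Tor d L) :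
    ∑ x, f x * FB_sn k x = 0 := by
  have h : ∑ x, f x * FB_sn k x = -∑ x, f x * FB_sn k x := by
    conv_lhs => rw [← Equiv.sum_comp (Equiv.neg (Tor d L))]
    rw [← Finset.sum_neg_distrib]
    refine Finset.sum_congr rfl fun x _ => ?_
    rw [Equiv.neg_apply, hf, FB_sn_neg]
    ring
  linarith

/-- Fourier inversion -/
theorem FB_inv (f : Tor d L → ℝ) (hf : ∀ x, f (-x) = f x) (x : Tor d L) :
    f x = 1 / (L : ℝ) ^ d * ∑ k, fh f k * cs k x := by
  have hL : (L : ℝ) ^ d ≠ 0 := pow_ne_zero _ (Nat.cast_ne_zero.2 (NeZero.ne L))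
  have h1 : ∑ k : Tor d L, fh f k * cs k x =
      ∑ y, f y * ((∑ k : Tor d L, cs k (y + x) + ∑ k : Tor d L, cs k (y - x)) / 2) := by
    simp only [fh, Finset.sum_mul]
    rw [Finset.sum_comm]
    refine Finset.sum_congr rfl fun y _ => ?_
    rw [← Finset.sum_add_distrib, Finset.sum_div, Finset.mul_sum]
    refine Finset.sum_congr rfl fun k _ => ?_
    rw [sub_eq_add_neg, FB_cs_add, FB_cs_add, FB_cs_neg, FB_sn_neg]
    ring
  rw [h1]
  have h2 : ∀ y : Tor d L, f y * ((∑ k : Tor d L, cs k (y + x) + ∑ k : Tor d L, cs k (y - x)) / 2) =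
      (if y = -x then f y * (L : ℝ) ^ d / 2 else 0) + (if y = x then f y * (L : ℝ) ^ d / 2 else 0) := by
    intro y
    rw [sum_cs, sum_cs]
    have e1 : y + x = 0 ↔ y = -x := ⟨fun h => eq_neg_of_add_eq_zero_left h, fun h => by simp [h]⟩
    have e2 : y - x = 0 ↔ y = x := sub_eq_zero
    simp only [e1, e2]
    split_ifs <;> ring
  rw [Finset.sum_congr rfl fun y _ => h2 y, Finset.sum_add_distrib, Finset.sum_ite_eq',
    Finset.sum_ite_eq', if_pos (Finset.mem_univ _), if_pos (Finset.mem_univ _), hf]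
  field_simp
  ring

/-- multiplication of a Fourier multiplier by a convolution matrix -/
theorem FB_mul (f : Tor d L → ℝ) (hf : ∀ x, f (-x) = f x) (a : Tor d L → ℝ) (x y : Tor d L) :
    ∑ z, CM f x z * (1 / (L : ℝ) ^ d * ∑ k, a k * cs k (y - z)) =
      1 / (L : ℝ) ^ d * ∑ k, fh f k * a k * cs k (y - x) := by
  have h1 : ∀ k : Tor d L, ∑ z, f (z - x) * cs k (y - z) = fh f k * cs k (y - x) := by
    intro k
    rw [← Equiv.sum_comp (Equiv.addRight x)]
    have : ∀ u : Tor d L, f (u + x - x) * cs k (y - (u + x)) =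
        f u * cs k u * cs k (y - x) + f u * FB_sn k u * FB_sn k (y - x) := by
      intro u
      have e : y - (u + x) = (y - x) + -u := by abel
      rw [add_sub_cancel_right, e, FB_cs_add, FB_cs_neg, FB_sn_neg]
      ring
    simp only [Equiv.coe_addRight]
    rw [Finset.sum_congr rfl fun u _ => this u, Finset.sum_add_distrib, ← Finset.sum_mul,
      ← Finset.sum_mul, FB_odd f hf, zero_mul, add_zero, fh]
  have h2 : ∀ z : Tor d L, CM f x z * (1 / (L : ℝ) ^ d * ∑ k, a k * cs k (y - z)) =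
      1 / (L : ℝ) ^ d * ∑ k, a k * (f (z - x) * cs k (y - z)) := by
    intro z
    rw [CM, Matrix.of_apply, ← mul_assoc, mul_comm (f (z - x)), mul_assoc, Finset.mul_sum]
    congr 1
    exact Finset.sum_congr rfl fun k _ => by ring
  rw [Finset.sum_congr rfl fun z _ => h2 z, ← Finset.mul_sum, Finset.sum_comm]
  congr 1
  refine Finset.sum_congr rfl fun k _ => ?_
  rw [← Finset.mul_sum, h1]
  ring

/-- FB (from FO): powers of convolution matrices -/
theorem CM_fourier (f g : Tor d L → ℝ) (hf : ∀ x, f (-x) = f x) (hg : ∀ x, g (-x) = g x)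
    (m : ℕ) (x y : Tor d L) :
    (CM f ^ m * CM g) x y = 1 / (L : ℝ) ^ d * ∑ k, fh f k ^ m * fh g k * cs k (y - x) := by
  induction m generalizing x y with
  | zero =>
    rw [pow_zero, one_mul, CM, Matrix.of_apply, FB_inv g hg]
    simp
  | succ m ih =>
    rw [pow_succ', mul_assoc, Matrix.mul_apply]
    have h1 : ∀ z, CM f x z * (CM f ^ m * CM g) z y = CM f x z *
        (1 / (L : ℝ) ^ d * ∑ k, (fh f k ^ m * fh g k) * cs k (y - z)) := fun z => by rw [ih]
    rw [Finset.sum_congr rfl fun z _ => h1 z, FB_mul f hf]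
    congr 1
    exact Finset.sum_congr rfl fun k _ => by ring

/-- FB -/
theorem CM_pow_fourier (f : Tor d L → ℝ) (hf : ∀ x, f (-x) = f x) (m : ℕ) (x y : Tor d L) :
    (CM f ^ m) x y = 1 / (L : ℝ) ^ d * ∑ k, fh f k ^ m * cs k (y - x) := by
  induction m generalizing x y with
  | zero =>
    have hL : (L : ℝ) ^ d ≠ 0 := pow_ne_zero _ (Nat.cast_ne_zero.2 (NeZero.ne L))
    simp only [pow_zero, one_mul]
    rw [sum_cs, Matrix.one_apply]
    by_cases h : x = y
    · subst h
      simp [hL]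
    · rw [if_neg h, if_neg (fun h' => h (sub_eq_zero.1 h').symm), mul_zero]
  | succ m ih =>
    rw [pow_succ', Matrix.mul_apply]
    have h1 : ∀ z, CM f x z * (CM f ^ m) z y = CM f x z *
        (1 / (L : ℝ) ^ d * ∑ k, fh f k ^ m * cs k (y - z)) := fun z => by rw [ih]
    rw [Finset.sum_congr rfl fun z _ => h1 z, FB_mul f hf]
    congr 1
    exact Finset.sum_congr rfl fun k _ => by ring

end Pool.Agent.helper66.LE
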