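import Pool.Agent.helper33.LE.FB

/-!
# Energy of a convolution power
-/

set_option autoImplicit false

open Finset Classical

namespace Pool.Agent.helper66.LE

variable {d L : ℕ} [NeZero L]

theorem FC_conj_left (l y : Tor d L) : starRingEnd ℂ (ee l y) = ee (-l) y := by
  rw [FO_symm l y, ← FB_neg, FO_symm]

/-- Parseval for real coefficients. -/
theorem FC_parseval (c : Tor d L → ℝ) :
    ∑ y : Tor d L, ‖∑ k, (c k : ℂ) * ee k y‖ ^ 2 = (L : ℝ) ^ d * ∑ k, c k ^ 2 := by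
  have h0 : ∀ y : Tor d L, ((‖∑ k, (c k : ℂ) * ee k y‖ ^ 2 : ℝ) : ℂ) =
      ∑ k, ∑ l, (c k * c l : ℂ) * ee (k - l) y := by
    intro y
    rw [← Complex.normSq_eq_norm_sq, ← Complex.mul_conj, map_sum, Finset.sum_mul_sum]
    refine Finset.sum_congr rfl fun k _ => Finset.sum_congr rfl fun l _ => ?_
    rw [map_mul, Complex.conj_ofReal, FC_conj_left, sub_eq_add_neg, FO_add_left]
    ring
  have h1 : ((∑ y : Tor d L, ‖∑ k, (c k : ℂ) * ee k y‖ ^ 2 : ℝ) : ℂ) =
      (((L : ℝ) ^ d * ∑ k, c k ^ 2 : ℝ) : ℂ) := by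
    rw [Complex.ofReal_sum, Finset.sum_congr rfl fun y _ => h0 y, Finset.sum_comm]
    have h2 : ∀ k : Tor d L, ∑ y : Tor d L, ∑ l, (c k * c l : ℂ) * ee (k - l) y =
        (L : ℂ) ^ d * (c k : ℂ) ^ 2 := by
      intro k
      rw [Finset.sum_comm]
      have h3 : ∀ l : Tor d L, ∑ y : Tor d L, (c k * c l : ℂ) * ee (k - l) y =
          if k = l then (L : ℂ) ^ d * (c k : ℂ) ^ 2 else 0 := by
        intro l
        rw [← Finset.mul_sum, sum_ee]
        by_cases h : k = l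
        · subst h
          simp only [sub_self, if_true]
          ring
        · rw [if_neg h, if_neg (fun h' => h (sub_eq_zero.1 h')), mul_zero]
      rw [Finset.sum_congr rfl fun l _ => h3 l, Finset.sum_ite_eq, if_pos (Finset.mem_univ _)]
    rw [Finset.sum_congr rfl fun k _ => h2 k, ← Finset.mul_sum]
    push_cast
    rfl
  exact_mod_cast h1

/-- lower bound for `|1 - stdAddChar a|` -/
theorem FC_dist (a : ZMod L) :
    4 * |((a.valMinAbs : ℤ) : ℝ)| / L ≤ ‖(1 : ℂ) - ZMod.stdAddChar a‖ := by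
  have hL0 : (0 : ℝ) < L := Nat.cast_pos.2 (Nat.pos_of_ne_zero (NeZero.ne L))
  set j : ℤ := a.valMinAbs with hj
  have hja : ((j : ℤ) : ZMod L) = a := by rw [hj]; exact ZMod.coe_valMinAbs a
  have hmem := ZMod.valMinAbs_mem_Ioc a
  rw [← hj, Set.mem_Ioc] at hmem
  have hjr : |(j : ℝ)| ≤ L / 2 := by
    have h1 : (-(L : ℤ) : ℝ) < (j * 2 : ℤ) := by exact_mod_cast hmem.1
    have h2 : ((j * 2 : ℤ) : ℝ) ≤ ((L : ℤ) : ℝ) := by exact_mod_cast hmem.2
    push_cast at h1 h2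
    rw [abs_le]
    constructor <;> linarith
  set θ : ℝ := Real.pi * j / L with hθ
  have hθ2 : |θ| ≤ Real.pi / 2 := by
    rw [hθ, abs_div, abs_mul, abs_of_pos Real.pi_pos, abs_of_pos hL0, div_le_iff₀ hL0]
    have := mul_le_mul_of_nonneg_left hjr Real.pi_pos.le
    linarith
  have h1 : (ZMod.stdAddChar a : ℂ) = Complex.exp (((2 * θ : ℝ) : ℂ) * Complex.I) := by
    rw [← hja, ZMod.stdAddChar_coe]
    congr 1
    rw [hθ]
    push_cast
    ring
  have h2 : ‖(1 : ℂ) - ZMod.stdAddChar a‖ ^ 2 = (2 * |Real.sin θ|) ^ 2 := by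
    rw [h1, ← Complex.normSq_eq_norm_sq, Complex.exp_mul_I, Complex.normSq_apply]
    simp only [Complex.sub_re, Complex.one_re, Complex.add_re, Complex.mul_re, Complex.I_re,
      mul_zero, Complex.I_im, mul_one, Complex.sub_im, Complex.one_im, Complex.add_im,
      Complex.mul_im, ← Complex.ofReal_cos, ← Complex.ofReal_sin, Complex.ofReal_re,
      Complex.ofReal_im]
    rw [mul_pow, sq_abs, Real.cos_two_mul, Real.sin_two_mul]
    have := Real.sin_sq_add_cos_sq θ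
    have e : Real.cos θ ^ 2 = 1 - Real.sin θ ^ 2 := by linarith
    ring_nf
    rw [show Real.cos θ ^ 4 = (Real.cos θ ^ 2) ^ 2 by ring, e]
    ring
  have h3 : ‖(1 : ℂ) - ZMod.stdAddChar a‖ = 2 * |Real.sin θ| :=
    (pow_left_inj₀ (norm_nonneg _) (by positivity) two_ne_zero).1 h2
  rw [h3]
  have h4 := Real.mul_abs_le_abs_sin hθ2
  have h5 : 2 / Real.pi * |θ| = 2 * |(j : ℝ)| / L := by
    rw [hθ, abs_div, abs_mul, abs_of_pos Real.pi_pos, abs_of_pos hL0]
    field_simp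
  rw [h5] at h4
  have h6 : 4 * |(j : ℝ)| / L = 2 * (2 * |(j : ℝ)| / L) := by ring
  rw [h6]
  linarith

/-- FC (from FO, FB): energy of a convolution power -/
theorem energy (f : Tor d L → ℝ) (hf : ∀ x, f (-x) = f x) (j : Fin d) :
    ∑ y, ab j y ^ 2 * ((CM f ^ 8) 0 y) ^ 2 ≤ (L : ℝ) ^ 2 / 16 * (1 / (L : ℝ) ^ d *
      ∑ k, (fh f k ^ 8 - fh f (k + Pi.single j 1) ^ 8) ^ 2) := by
  have hL0 : (0 : ℝ) < L := Nat.cast_pos.2 (Nat.pos_of_ne_zero (NeZero.ne L))
  have hLd : (0 : ℝ) < (L : ℝ) ^ d := pow_pos hL0 d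
  set F : Tor d L → ℝ := fun k => fh f k ^ 8 with hF
  have hFneg : ∀ k, F (-k) = F k := fun k => by simp only [hF, FB_fh_neg]
  set e : Tor d L := Pi.single j 1 with he
  -- the power in terms of complex characters
  have hg : ∀ y : Tor d L, (((CM f ^ 8) 0 y : ℝ) : ℂ) = 1 / (L : ℂ) ^ d * ∑ k, (F k : ℂ) * ee k y := by
    intro y
    have h1 := CM_pow_fourier f hf 8 0 y
    rw [sub_zero] at h1
    have h2 : ∑ k, (F k : ℂ) * ee k y = ((∑ k, F k * cs k y : ℝ) : ℂ) := by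
      apply Complex.ext
      · rw [Complex.re_sum, Complex.ofReal_re]
        exact Finset.sum_congr rfl fun k _ => by rw [Complex.re_ofReal_mul, cs]
      · rw [Complex.im_sum, Complex.ofReal_im]
        have h3 := FB_odd F hFneg y
        rw [← h3]
        exact Finset.sum_congr rfl fun k _ => by rw [Complex.im_ofReal_mul, FB_sn, FO_symm]
    rw [h1, h2]
    simp only [hF]
    push_cast
    rfl
  have hh : ∀ y : Tor d L, ((1 : ℂ) - ZMod.stdAddChar (y j)) * (((CM f ^ 8) 0 y : ℝ) : ℂ) =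
      1 / (L : ℂ) ^ d * ∑ k, ((F k - F (k - e) : ℝ) : ℂ) * ee k y := by
    intro y
    rw [hg]
    have h1 : ∑ k, ((F (k - e) : ℝ) : ℂ) * ee k y =
        ZMod.stdAddChar (y j) * ∑ k, (F k : ℂ) * ee k y := by
      rw [← Equiv.sum_comp (Equiv.addRight e), Finset.mul_sum]
      refine Finset.sum_congr rfl fun k _ => ?_
      rw [Equiv.coe_addRight, add_sub_cancel_right, FO_add_left, he, FO_single, one_mul]
      ring
    have h2 : ∑ k, ((F k - F (k - e) : ℝ) : ℂ) * ee k y =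
        ∑ k, (F k : ℂ) * ee k y - ∑ k, ((F (k - e) : ℝ) : ℂ) * ee k y := by
      rw [← Finset.sum_sub_distrib]
      refine Finset.sum_congr rfl fun k _ => ?_
      push_cast
      ring
    rw [h2, h1]
    ring
  have hpt : ∀ y : Tor d L, ab j y ^ 2 * ((CM f ^ 8) 0 y) ^ 2 ≤ (L : ℝ) ^ 2 / 16 *
      ((1 / (L : ℝ) ^ d) ^ 2 * ‖∑ k, ((F k - F (k - e) : ℝ) : ℂ) * ee k y‖ ^ 2) := by
    intro y
    have h1 : ‖((1 : ℂ) - ZMod.stdAddChar (y j)) * (((CM f ^ 8) 0 y : ℝ) : ℂ)‖ ^ 2 =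
        (1 / (L : ℝ) ^ d) ^ 2 * ‖∑ k, ((F k - F (k - e) : ℝ) : ℂ) * ee k y‖ ^ 2 := by
      rw [hh, norm_mul, mul_pow]
      congr 2
      rw [norm_div, norm_one, norm_pow, Complex.norm_natCast]
    rw [← h1, norm_mul, mul_pow, Complex.norm_real, Real.norm_eq_abs, sq_abs]
    have h2 := FC_dist (y j)
    have h3 : (4 * |((y j).valMinAbs : ℝ)| / L) ^ 2 ≤ ‖(1 : ℂ) - ZMod.stdAddChar (y j)‖ ^ 2 := by
      gcongr
    have h4 : ab j y ^ 2 = (L : ℝ) ^ 2 / 16 * (4 * |((y j).valMinAbs : ℝ)| / L) ^ 2 := by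
      unfold ab
      field_simp
      ring
    rw [h4, mul_assoc]
    gcongr
  refine (Finset.sum_le_sum fun y _ => hpt y).trans ?_
  rw [← Finset.mul_sum, ← Finset.mul_sum, FC_parseval]
  have h5 : ∑ k, (F k - F (k - e)) ^ 2 = ∑ k, (F k - F (k + e)) ^ 2 := by
    rw [← Equiv.sum_comp (Equiv.addRight e)]
    refine Finset.sum_congr rfl fun k _ => ?_
    rw [Equiv.coe_addRight, add_sub_cancel_right]
    ring
  rw [h5]
  refine le_of_eq ?_
  simp only [hF]
  field_simp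

end Pool.Agent.helper66.LE
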