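import Pool.Agent.helper64.LE.Base

/-!
# Characters of the torus: orthogonality
-/

set_option autoImplicit false

open Finset Classical

namespace Pool.Agent.helper66.LE

variable {d L : ℕ} [NeZero L]

/-- the character `ee k` as an additive character -/
noncomputable def FO_char (k : Tor d L) : AddChar (Tor d L) ℂ where
  toFun := ee k
  map_zero_eq_one' := by simp [ee]
  map_add_eq_mul' x y := by
    simp only [ee, Pi.add_apply, mul_add, Finset.sum_add_distrib, AddChar.map_add_eq_mul]

theorem FO_char_apply (k x : Tor d L) : FO_char k x = ee k x := rfl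

theorem FO_add (k x y : Tor d L) : ee k (x + y) = ee k x * ee k y :=
  (FO_char k).map_add_eq_mul x y

theorem FO_zero (k : Tor d L) : ee k 0 = 1 := (FO_char k).map_zero_eq_one

theorem FO_symm (k x : Tor d L) : ee k x = ee x k := by
  simp only [ee, mul_comm]

theorem FO_zero_left (x : Tor d L) : ee 0 x = 1 := by rw [FO_symm, FO_zero]

theorem FO_add_left (k l x : Tor d L) : ee (k + l) x = ee k x * ee l x := by
  rw [FO_symm, FO_add, FO_symm x, FO_symm x]

theorem FO_single (j : Fin d) (a : ZMod L) (x : Tor d L) :
    ee (Pi.single j a) x = ZMod.stdAddChar (a * x j) := by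
  unfold ee
  congr 1
  rw [Finset.sum_eq_single j]
  · simp
  · intro b _ hb
    simp [Pi.single_eq_of_ne hb]
  · intro h
    exact absurd (Finset.mem_univ _) h

/-- FO -/
theorem sum_ee (k : Tor d L) : ∑ x : Tor d L, ee k x = if k = 0 then (L : ℂ) ^ d else 0 := by
  have h := AddChar.sum_eq_ite (FO_char k)
  simp only [FO_char_apply] at h
  rw [h]
  have hcard : (Fintype.card (Tor d L) : ℂ) = (L : ℂ) ^ d := by
    simp [Tor, Fintype.card_pi, ZMod.card]
  have hiff : FO_char k = 0 ↔ k = 0 := by
    constructor
    · intro h0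
      funext j
      have h1 : FO_char k (Pi.single j 1) = 1 := by rw [h0]; rfl
      rw [FO_char_apply, FO_symm, FO_single, one_mul] at h1
      have h2 : (ZMod.stdAddChar (k j) : ℂ) = ZMod.stdAddChar (0 : ZMod L) := by
        rw [h1, AddChar.map_zero_eq_one]
      exact ZMod.injective_stdAddChar h2
    · rintro rfl
      ext x
      rw [FO_char_apply, FO_zero_left]
      rfl
  simp only [hiff, hcard]

/-- FO: characters -/
theorem sum_cs (x : Tor d L) : ∑ k : Tor d L, cs k x = if x = 0 then (L : ℝ) ^ d else 0 := by
  have h := sum_ee x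
  have h1 : ∑ k : Tor d L, cs k x = (∑ k : Tor d L, ee x k).re := by
    rw [Complex.re_sum]
    refine Finset.sum_congr rfl fun k _ => ?_
    rw [cs, FO_symm]
  rw [h1, h]
  split_ifs
  · norm_cast
  · simp

end Pool.Agent.helper66.LE
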